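import Pool.Agent.H76.SF.Stm

set_option autoImplicit false

namespace H14.SF

open Finset Classical H76.SF

theorem cnt {V : Type} [Fintype V] (G : SimpleGraph V) (S : Finset V) (v : V) :
    (S.filter (fun x => G.Adj v x)).card + (S.filter (fun x => Gᶜ.Adj v x)).card +
      (if v ∈ S then 1 else 0) = S.card := by
  have h1 : (if v ∈ S then 1 else 0) = ∑ x ∈ S, if x = v then 1 else 0 := by
    rw [Finset.sum_ite_eq']
  rw [h1, Finset.card_filter, Finset.card_filter, ← Finset.sum_add_distrib,
    ← Finset.sum_add_distrib, Finset.card_eq_sum_ones]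
  refine Finset.sum_congr rfl (fun x _ => ?_)
  by_cases hx : x = v
  · subst hx
    simp
  · have hx' : v ≠ x := Ne.symm hx
    by_cases ha : G.Adj v x
    · simp [hx, ha]
    · simp [hx, ha, hx']

theorem t_ONE (hGRE : S_GRE) (hSPA : S_SPA) : S_ONE := by
  intro V _ G n r q hr hV hn hdeg
  by_contra hno
  have hm1 : r ≤ r * (q + 1) := Nat.le_mul_of_pos_right r (Nat.succ_pos q)
  generalize hmdef : r * (q + 1) = m at *
  have hcu : ∀ v : V, n + r ≤ (univ.filter (fun x => G.Adj v x)).card := by
    intro v
    have h := cnt G univ v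
    rw [if_pos (Finset.mem_univ v), Finset.card_univ, hV] at h
    have := hdeg v
    omega
  have hne : 0 < Fintype.card V := by omega
  obtain ⟨v0⟩ := Fintype.card_pos_iff.mp hne
  obtain ⟨W, hW, hWt⟩ := hSPA V G n r q v0 hr (by have := hcu v0; omega) hno
  rw [hmdef] at hWt
  have hWc : W.card = n + r - 1 := by omega
  -- typical vertices
  have hT : n ≤ (W.filter (fun w => (W.filter (fun x => G.Adj w x)).card < m)).card := by
    have h := Finset.card_filter_add_card_filter_not (s := W)
      (fun w => m ≤ (W.filter (fun x => G.Adj w x)).card)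
    simp only [not_le] at h
    omega
  obtain ⟨T, hTsub, hTc⟩ := Finset.exists_subset_card_eq hT
  have hTW : T ⊆ W := hTsub.trans (Finset.filter_subset _ _)
  have hTt : ∀ w ∈ T, (W.filter (fun x => G.Adj w x)).card < m :=
    fun w hw => (Finset.mem_filter.mp (hTsub hw)).2
  have hUc : (univ \ W).card = n + 1 := by
    rw [Finset.card_sdiff_of_subset (Finset.subset_univ _), Finset.card_univ]
    omega
  -- few non-neighbours in U
  have hTU : ∀ w ∈ T, ((univ \ W).filter (fun x => Gᶜ.Adj w x)).card + r ≤ m := by
    intro w hw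
    have h1 := cnt G W w
    rw [if_pos (hTW hw)] at h1
    have h2 := hTt w hw
    have h3 := hdeg w
    have h4 : ((univ \ W).filter (fun x => Gᶜ.Adj w x)).card +
        (W.filter (fun x => Gᶜ.Adj w x)).card = (univ.filter (fun x => Gᶜ.Adj w x)).card := by
      rw [← Finset.card_union_of_disjoint]
      · congr 1
        ext x
        simp only [Finset.mem_union, Finset.mem_filter, Finset.mem_sdiff, Finset.mem_univ,
          true_and]
        tauto
      · rw [Finset.disjoint_left]
        intro x hx hx'
        exact (Finset.mem_sdiff.mp (Finset.mem_filter.mp hx).1).2 (Finset.mem_filter.mp hx').1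
    omega
  -- bad vertices
  have hbad : ((univ \ W).filter (fun u => (W.filter (fun x => G.Adj u x)).card ≤ 2 * m)).card
      ≤ 2 * m := by
    by_contra hcon
    push Not at hcon
    set B := (univ \ W).filter (fun u => (W.filter (fun x => G.Adj u x)).card ≤ 2 * m) with hB
    have h1 : B.card * (n - 2 * m) ≤ ∑ u ∈ B, (T.filter (fun x => Gᶜ.Adj u x)).card := by
      rw [← smul_eq_mul, ← Finset.sum_const]
      refine Finset.sum_le_sum (fun u hu => ?_)
      have h2 := cnt G T u
      obtain ⟨huW, hub⟩ := Finset.mem_filter.mp hu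
      have h3 : u ∉ T := fun h => (Finset.mem_sdiff.mp huW).2 (hTW h)
      rw [if_neg h3] at h2
      have h4 : (T.filter (fun x => G.Adj u x)).card ≤ (W.filter (fun x => G.Adj u x)).card :=
        Finset.card_le_card (Finset.filter_subset_filter _ hTW)
      omega
    have h2 : ∑ u ∈ B, (T.filter (fun x => Gᶜ.Adj u x)).card =
        ∑ w ∈ T, (B.filter (fun x => Gᶜ.Adj w x)).card := by
      simp only [Finset.card_filter]
      rw [Finset.sum_comm]
      refine Finset.sum_congr rfl (fun w _ => Finset.sum_congr rfl (fun u _ => ?_))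
      simp only [SimpleGraph.adj_comm]
    have h3 : ∑ w ∈ T, (B.filter (fun x => Gᶜ.Adj w x)).card ≤ T.card * m := by
      rw [← smul_eq_mul, ← Finset.sum_const]
      refine Finset.sum_le_sum (fun w hw => ?_)
      have := hTU w hw
      have h4 : (B.filter (fun x => Gᶜ.Adj w x)).card ≤
          ((univ \ W).filter (fun x => Gᶜ.Adj w x)).card :=
        Finset.card_le_card (Finset.filter_subset_filter _ (Finset.filter_subset _ _))
      omega
    rw [hTc] at h3
    have h5 : B.card * (n - 2 * m) ≤ n * m := h1.trans (h2.le.trans h3)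
    have h6 : (2 * m + 1) * (n - 2 * m) ≤ n * m := le_trans (Nat.mul_le_mul_right _ hcon) h5
    obtain ⟨t, rfl⟩ : ∃ t, n = t + 20 * m := ⟨n - 20 * m, by omega⟩
    have h7 : t + 20 * m - 2 * m = t + 18 * m := by omega
    rw [h7] at h6
    nlinarith
  -- choose w
  obtain ⟨w, hw⟩ : T.Nonempty := by
    rw [← Finset.card_pos]; omega
  have hwN := hTt w hw
  have hwU := hTU w hw
  have hwW : w ∈ W := hTW hw
  have hgood : r ≤ ((univ \ W).filter (fun u => G.Adj w u ∧
      2 * m < (W.filter (fun x => G.Adj u x)).card)).card := by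
    have h1 := cnt G (univ \ W) w
    rw [if_neg (fun h => (Finset.mem_sdiff.mp h).2 hwW), hUc] at h1
    have h2 : ((univ \ W).filter (fun x => G.Adj w x)).card ≤
        ((univ \ W).filter (fun u => G.Adj w u ∧
          2 * m < (W.filter (fun x => G.Adj u x)).card)).card +
        ((univ \ W).filter (fun u => (W.filter (fun x => G.Adj u x)).card ≤ 2 * m)).card := by
      refine le_trans (Finset.card_le_card ?_) (Finset.card_union_le _ _)
      intro x hx
      rw [Finset.mem_filter] at hx
      rw [Finset.mem_union, Finset.mem_filter, Finset.mem_filter]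
      by_cases hx2 : (W.filter (fun y => G.Adj x y)).card ≤ 2 * m
      · exact Or.inr ⟨hx.1, hx2⟩
      · exact Or.inl ⟨hx.1, hx.2, not_le.mp hx2⟩
    omega
  obtain ⟨R, hRsub, hRc⟩ := Finset.exists_subset_card_eq hgood
  have hR : ∀ x ∈ R, x ∉ W ∧ G.Adj w x ∧ 2 * m < (W.filter (fun y => G.Adj x y)).card := by
    intro x hx
    have := Finset.mem_filter.mp (hRsub hx)
    exact ⟨(Finset.mem_sdiff.mp this.1).2, this.2.1, this.2.2⟩
  have hL0 : n ≤ ((univ.filter (fun x => G.Adj w x)) \ R).card := by
    have h1 := Finset.le_card_sdiff R (univ.filter (fun x => G.Adj w x))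
    have h2 := hcu w
    omega
  obtain ⟨L, hLsub, hLc⟩ := Finset.exists_subset_card_eq hL0
  have hL : ∀ x ∈ L, G.Adj w x ∧ x ∉ R := by
    intro x hx
    have := Finset.mem_sdiff.mp (hLsub hx)
    exact ⟨(Finset.mem_filter.mp this.1).2, this.2⟩
  have hLW : (L ∩ W).card < m := by
    refine lt_of_le_of_lt (Finset.card_le_card ?_) hwN
    intro x hx
    rw [Finset.mem_inter] at hx
    exact Finset.mem_filter.mpr ⟨hx.2, (hL x hx.1).1⟩
  let e := R.equivFinOfCardEq hRc
  apply hno
  refine hGRE V G n r q w L (fun i => ((e.symm i : R) : V)) hLc (fun x hx => (hL x hx).1)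
    (Subtype.val_injective.comp e.symm.injective) (fun i => ⟨?_, ?_⟩) (fun i => ?_)
  · intro h
    have := (hR _ (e.symm i).2).2.1
    rw [h] at this
    exact this.ne rfl
  · intro h
    exact (hL _ h).2 (e.symm i).2
  · rw [hmdef]
    obtain ⟨hxW, hxa, hxc⟩ := hR _ (e.symm i).2
    generalize ((e.symm i : R) : V) = x at hxW hxa hxc ⊢
    have h1 : (W.filter (fun y => G.Adj x y)).card ≤
        (univ.filter (fun y => G.Adj x y ∧ y ∉ L ∧ y ≠ w)).card + ((L ∩ W).card + ({w} : Finset V).card) := by
      refine le_trans (Finset.card_le_card ?_) (le_trans (Finset.card_union_le _ _)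
        (Nat.add_le_add_left (Finset.card_union_le _ _) _))
      intro y hy
      rw [Finset.mem_filter] at hy
      rw [Finset.mem_union, Finset.mem_union, Finset.mem_filter, Finset.mem_inter,
        Finset.mem_singleton]
      by_cases h2 : y ∈ L
      · exact Or.inr (Or.inl ⟨h2, hy.1⟩)
      · by_cases h3 : y = w
        · exact Or.inr (Or.inr h3)
        · exact Or.inl ⟨Finset.mem_univ _, hy.2, h2, h3⟩
    rw [Finset.card_singleton] at h1
    omega

end H14.SF
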